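import Mathlib

set_option autoImplicit false

/-!
Weakly contractive set-valued maps with closed bounded values on a complete metric space have
fixed points (the question of Amini-Harandi, answered affirmatively).

Idea of the proof.  A continuous nondecreasing subadditive `γ` vanishing exactly at `0` satisfies
`γ t ≥ (γ 1 / 2) min (t, 1)`.  Hence every `θ` in the class satisfies `θ t ≥ c min (t, 1)` for some
`c > 0`.  An orbit `x (n+1) ∈ T (x n)` chosen with
`d (n+1) ≤ d n - (c / 2) min (d n, 1)`, `d n = dist (x n) (x (n+1))`, is then summable by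
telescoping, and its limit is a fixed point.
-/

namespace Pool.Agent.Results.MP_e93574_an.ClosedBoundedValues

open Filter Topology
open scoped NNReal

/-- The class `Γ`: continuous, nondecreasing, subadditive maps `γ : [0,∞) → [0,∞)` whose only zero
is `0`. -/
structure IsGamma (γ : ℝ≥0 → ℝ≥0) : Prop where
  cont : Continuous γ
  mono : Monotone γ
  subadd : ∀ s t, γ (s + t) ≤ γ s + γ t
  zero_iff : ∀ t, γ t = 0 ↔ t = 0

/-- The class `𝒜`: maps `θ : [0,∞) → [0,∞)` for which there are `ε₀ > 0` and `γ ∈ Γ` such that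
`θ t ≤ ε₀` implies `γ t ≤ θ t`, for every `t ≥ 0`. -/
def ClassA (θ : ℝ≥0 → ℝ≥0) : Prop :=
  ∃ ε₀ : ℝ≥0, 0 < ε₀ ∧ ∃ γ : ℝ≥0 → ℝ≥0, IsGamma γ ∧ ∀ t, θ t ≤ ε₀ → γ t ≤ θ t

theorem gamma_nat {γ : ℝ≥0 → ℝ≥0} (h : IsGamma γ) (t : ℝ≥0) (n : ℕ) :
    γ (n * t) ≤ n * γ t := by
  induction n with
  | zero => simp [(h.zero_iff 0).2 rfl]
  | succ n ih =>
    calc γ ((n + 1 : ℕ) * t) = γ (n * t + t) := by push_cast; ring_nf
      _ ≤ γ (n * t) + γ t := h.subadd _ _
      _ ≤ n * γ t + γ t := by gcongr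
      _ = (n + 1 : ℕ) * γ t := by push_cast; ring

theorem gamma_lower {γ : ℝ≥0 → ℝ≥0} (h : IsGamma γ) (t : ℝ≥0) :
    (γ 1 : ℝ) / 2 * min (t : ℝ) 1 ≤ γ t := by
  have hg : (0 : ℝ) ≤ γ 1 := (γ 1).coe_nonneg
  rcases le_total 1 t with ht | ht
  · have h1 : (γ 1 : ℝ) ≤ γ t := by exact_mod_cast h.mono ht
    have h2 : min (t : ℝ) 1 ≤ 1 := min_le_right _ _
    nlinarith
  · rcases eq_or_ne t 0 with rfl | ht0
    · simp
    · have htpos : (0 : ℝ) < t := by exact_mod_cast (pos_iff_ne_zero.2 ht0)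
      have ht1 : (t : ℝ) ≤ 1 := by exact_mod_cast ht
      obtain ⟨n, hn⟩ : ∃ n : ℕ, n = ⌈(1 : ℝ) / t⌉₊ := ⟨_, rfl⟩
      have hn1 : (1 : ℝ) / t ≤ n := by rw [hn]; exact Nat.le_ceil _
      have hn2 : (n : ℝ) < 1 / t + 1 := by
        rw [hn]; exact Nat.ceil_lt_add_one (by positivity)
      have h1 : (1 : ℝ) ≤ n * t := by
        rw [div_le_iff₀ htpos] at hn1; exact hn1
      have h1' : (1 : ℝ≥0) ≤ n * t := by exact_mod_cast h1
      have h2 : γ 1 ≤ n * γ t := (h.mono h1').trans (gamma_nat h t n)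
      have h2' : (γ 1 : ℝ) ≤ n * γ t := by exact_mod_cast h2
      have h3 : (n : ℝ) * t ≤ 2 := by
        have : (n : ℝ) * t < (1 / t + 1) * t := mul_lt_mul_of_pos_right hn2 htpos
        have h4 : (1 / (t : ℝ) + 1) * t = 1 + t := by field_simp
        linarith
      have hgt : (0 : ℝ) ≤ γ t := (γ t).coe_nonneg
      rw [min_eq_left ht1]
      have h5 : (γ 1 : ℝ) * t ≤ (n * t) * γ t := by nlinarith
      nlinarith

/-- Every `θ` of the class `𝒜` is bounded below by `c min (t, 1)`. -/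
theorem classA_lower {θ : ℝ≥0 → ℝ≥0} (h : ClassA θ) :
    ∃ c : ℝ, 0 < c ∧ ∀ t : ℝ≥0, c * min (t : ℝ) 1 ≤ θ t := by
  obtain ⟨ε₀, hε, γ, hγ, hθ⟩ := h
  have hg1 : (0 : ℝ) < γ 1 := by
    have : γ 1 ≠ 0 := fun h0 => one_ne_zero ((hγ.zero_iff 1).1 h0)
    exact_mod_cast (pos_iff_ne_zero.2 this)
  have hε' : (0 : ℝ) < ε₀ := by exact_mod_cast hε
  refine ⟨min (ε₀ : ℝ) ((γ 1 : ℝ) / 2), lt_min hε' (by positivity), fun t => ?_⟩
  have hm0 : (0 : ℝ) ≤ min (t : ℝ) 1 := le_min t.coe_nonneg zero_le_one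
  have hm1 : min (t : ℝ) 1 ≤ 1 := min_le_right _ _
  rcases le_or_gt (θ t) ε₀ with h1 | h1
  · have h2 : (γ t : ℝ) ≤ θ t := by exact_mod_cast hθ t h1
    calc min (ε₀ : ℝ) ((γ 1 : ℝ) / 2) * min (t : ℝ) 1 ≤ (γ 1 : ℝ) / 2 * min (t : ℝ) 1 :=
          mul_le_mul_of_nonneg_right (min_le_right _ _) hm0
      _ ≤ γ t := gamma_lower hγ t
      _ ≤ θ t := h2
  · have h2 : (ε₀ : ℝ) ≤ θ t := by exact_mod_cast h1.le
    calc min (ε₀ : ℝ) ((γ 1 : ℝ) / 2) * min (t : ℝ) 1 ≤ (ε₀ : ℝ) * min (t : ℝ) 1 :=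
          mul_le_mul_of_nonneg_right (min_le_left _ _) hm0
      _ ≤ (ε₀ : ℝ) * 1 := mul_le_mul_of_nonneg_left hm1 hε'.le
      _ = ε₀ := mul_one _
      _ ≤ θ t := h2

/-- **Theorem.**  Let `X` be a nonempty complete metric space, `θ ∈ 𝒜`, and let `T` assign to each
point a nonempty closed bounded set with `H (T x) (T y) ≤ d (x, y) - θ (d (x, y))`.  Then `T` has a
fixed point. -/
theorem result.{u} {X : Type u} [MetricSpace X] [CompleteSpace X] [Nonempty X]
    (θ : ℝ≥0 → ℝ≥0) (hθ : ClassA θ) (T : X → Set X)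
    (hT : ∀ x, (T x).Nonempty ∧ IsClosed (T x) ∧ Bornology.IsBounded (T x))
    (hw : ∀ x y, Metric.hausdorffDist (T x) (T y) ≤ dist x y - θ (nndist x y)) :
    ∃ x, x ∈ T x := by
  by_contra hno
  push Not at hno
  obtain ⟨c, hc, hlow⟩ := classA_lower hθ
  have hfin : ∀ x y, Metric.hausdorffEDist (T x) (T y) ≠ ⊤ := fun x y =>
    Metric.hausdorffEDist_ne_top_of_nonempty_of_bounded (hT x).1 (hT y).1 (hT x).2.2 (hT y).2.2
  have hH : ∀ x y, Metric.hausdorffDist (T x) (T y) ≤ dist x y - c * min (dist x y) 1 := by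
    intro x y
    have h1 := hw x y
    have h2 := hlow (nndist x y)
    rw [coe_nndist] at h2
    linarith
  -- one step of the orbit
  have step : ∀ p : {p : X × X // p.2 ∈ T p.1}, ∃ q : {p : X × X // p.2 ∈ T p.1},
      q.1.1 = p.1.2 ∧ dist q.1.1 q.1.2 ≤ dist p.1.1 p.1.2 - c / 2 * min (dist p.1.1 p.1.2) 1 := by
    rintro ⟨⟨a, b⟩, hab⟩
    have hne : a ≠ b := by
      rintro rfl
      exact hno a hab
    have hd : 0 < dist a b := dist_pos.2 hne
    have hm : 0 < min (dist a b) 1 := lt_min hd one_pos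
    obtain ⟨z, hz, hbz⟩ := Metric.exists_dist_lt_of_hausdorffDist_lt (r := dist a b - c / 2 * min (dist a b) 1)
      hab (lt_of_le_of_lt (hH a b) (by nlinarith [mul_pos hc hm])) (hfin a b)
    exact ⟨⟨(b, z), hz⟩, rfl, hbz.le⟩
  choose next hnext1 hnext2 using step
  obtain ⟨x0⟩ := ‹Nonempty X›
  obtain ⟨x1, hx1⟩ := (hT x0).1
  set P : ℕ → {p : X × X // p.2 ∈ T p.1} := fun n => next^[n] ⟨(x0, x1), hx1⟩ with hP
  have hPs : ∀ n, P (n + 1) = next (P n) := fun n => Function.iterate_succ_apply' next n _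
  set x : ℕ → X := fun n => (P n).1.1 with hx
  have hx' : ∀ n, (P n).1.2 = x (n + 1) := by
    intro n
    rw [hx]; show _ = (P (n + 1)).1.1
    rw [hPs, hnext1]
  have hmem : ∀ n, x (n + 1) ∈ T (x n) := by
    intro n
    rw [← hx' n]
    exact (P n).2
  set d : ℕ → ℝ := fun n => dist (x n) (x (n + 1)) with hd
  have hdec : ∀ n, d (n + 1) ≤ d n - c / 2 * min (d n) 1 := by
    intro n
    have := hnext2 (P n)
    rw [← hPs, hx' n] at this
    rw [hx' (n + 1)] at this
    exact this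
  have hd0 : ∀ n, 0 ≤ d n := fun n => dist_nonneg
  have hmin0 : ∀ n, 0 ≤ min (d n) 1 := fun n => le_min (hd0 n) zero_le_one
  have hmono : ∀ n, d (n + 1) ≤ d n := by
    intro n
    have := hdec n
    nlinarith [hmin0 n]
  have hanti : Antitone d := antitone_nat_of_succ_le hmono
  set M : ℝ := max (d 0) 1 with hM
  have hM1 : 1 ≤ M := le_max_right _ _
  have hMpos : 0 < M := lt_of_lt_of_le one_pos hM1
  have hmin : ∀ n, d n ≤ M * min (d n) 1 := by
    intro n
    rcases le_total (d n) 1 with h | h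
    · rw [min_eq_left h]
      nlinarith [hd0 n]
    · rw [min_eq_right h, mul_one]
      exact (hanti (Nat.zero_le n)).trans (le_max_left _ _)
  have hb : ∀ n, d n ≤ (2 / c * M) * (d n - d (n + 1)) := by
    intro n
    have h1 : min (d n) 1 ≤ 2 / c * (d n - d (n + 1)) := by
      have h2 := hdec n
      have h3 : c / 2 * min (d n) 1 ≤ d n - d (n + 1) := by linarith
      rw [div_mul_eq_mul_div, le_div_iff₀ hc]
      linarith
    calc d n ≤ M * min (d n) 1 := hmin n
      _ ≤ M * (2 / c * (d n - d (n + 1))) := mul_le_mul_of_nonneg_left h1 hMpos.le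
      _ = (2 / c * M) * (d n - d (n + 1)) := by ring
  have hsum : Summable d := by
    refine summable_of_sum_range_le (c := (2 / c * M) * d 0) hd0 (fun n => ?_)
    calc ∑ i ∈ Finset.range n, d i ≤ ∑ i ∈ Finset.range n, (2 / c * M) * (d i - d (i + 1)) :=
          Finset.sum_le_sum (fun i _ => hb i)
      _ = (2 / c * M) * (d 0 - d n) := by
          rw [← Finset.mul_sum, Finset.sum_range_sub']
      _ ≤ (2 / c * M) * d 0 := by
          apply mul_le_mul_of_nonneg_left _ (by positivity)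
          linarith [hd0 n]
  have hcauchy : CauchySeq x := cauchySeq_of_summable_dist hsum
  obtain ⟨y, hy⟩ := cauchySeq_tendsto_of_complete hcauchy
  have hle : ∀ n, Metric.infDist y (T y) ≤ dist y (x (n + 1)) + dist (x n) y := by
    intro n
    have h1 : Metric.infDist y (T y) ≤ Metric.infDist (x (n + 1)) (T y) + dist y (x (n + 1)) :=
      Metric.infDist_le_infDist_add_dist
    have h2 : Metric.infDist (x (n + 1)) (T y) ≤ Metric.hausdorffDist (T (x n)) (T y) :=
      Metric.infDist_le_hausdorffDist_of_mem (hmem n) (hfin _ _)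
    have h3 := hH (x n) y
    have h4 : 0 ≤ c * min (dist (x n) y) 1 :=
      mul_nonneg hc.le (le_min dist_nonneg zero_le_one)
    linarith
  have hlim : Tendsto (fun n => dist y (x (n + 1)) + dist (x n) y) atTop (𝓝 0) := by
    have h1 : Tendsto (fun n => dist y (x (n + 1))) atTop (𝓝 0) := by
      have := (tendsto_const_nhds (x := y)).dist ((tendsto_add_atTop_iff_nat 1).2 hy)
      simpa using this
    have h2 : Tendsto (fun n => dist (x n) y) atTop (𝓝 0) := by
      have := hy.dist (tendsto_const_nhds (x := y))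
      simpa using this
    simpa using h1.add h2
  have hinf : Metric.infDist y (T y) = 0 :=
    le_antisymm (ge_of_tendsto' hlim hle) Metric.infDist_nonneg
  exact hno y (((hT y).2.1.mem_iff_infDist_zero (hT y).1).2 hinf)

end Pool.Agent.Results.MP_e93574_an.ClosedBoundedValues
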